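import Pool.Agent.Work.MP_79fed9_lc.RA

set_option autoImplicit false

/-!
# The flexible atom theorem

Every finite relation algebra in which the identity is an atom and which has a flexible atom is
isomorphic to an algebra of binary relations on a finite set.
-/

namespace Pool.Agent.Results.MP_79fed9_lc.FlexibleAtom

universe u

/-- A relation algebra (Tarski's axioms) on the Boolean algebra `A`. -/
structure RelAlg (A : Type u) [BooleanAlgebra A] where
  /-- composition -/
  comp : A → A → A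
  /-- converse -/
  conv : A → A
  /-- identity element -/
  one : A
  assoc : ∀ x y z : A, comp (comp x y) z = comp x (comp y z)
  sup_comp : ∀ x y z : A, comp (x ⊔ y) z = comp x z ⊔ comp y z
  comp_one : ∀ x : A, comp x one = x
  conv_conv : ∀ x : A, conv (conv x) = x
  conv_sup : ∀ x y : A, conv (x ⊔ y) = conv x ⊔ conv y
  conv_comp : ∀ x y : A, conv (comp x y) = comp (conv y) (conv x)
  tarski : ∀ x y : A, comp (conv x) (comp x y)ᶜ ⊔ yᶜ = yᶜ

/-- `h` is a representation of `R` over `U`: an injective homomorphism to the algebra of all binary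
relations on `U`. -/
structure IsRep {A : Type u} [BooleanAlgebra A] (R : RelAlg A) {U : Type} (h : A → Set (U × U)) :
    Prop where
  inj : Function.Injective h
  bot : h ⊥ = ∅
  top : h ⊤ = Set.univ
  sup : ∀ x y : A, h (x ⊔ y) = h x ∪ h y
  inf : ∀ x y : A, h (x ⊓ y) = h x ∩ h y
  compl : ∀ x : A, h xᶜ = (h x)ᶜ
  comp : ∀ x y : A, h (R.comp x y) = {p | ∃ w, (p.1, w) ∈ h x ∧ (w, p.2) ∈ h y}
  conv : ∀ x : A, h (R.conv x) = {p | (p.2, p.1) ∈ h x}
  one : h R.one = {p | p.1 = p.2}

/-- `x` is a diversity atom: an atom different from the identity. -/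
def DivAtom {A : Type u} [BooleanAlgebra A] (R : RelAlg A) (x : A) : Prop := IsAtom x ∧ x ≠ R.one

/-- The diversity atom `f` is flexible: it occurs in no forbidden diversity cycle. -/
def Flexible {A : Type u} [BooleanAlgebra A] (R : RelAlg A) (f : A) : Prop :=
  DivAtom R f ∧ ∀ x y z : A, DivAtom R x → DivAtom R y → DivAtom R z →
    f = x ∨ f = y ∨ f = z → z ≤ R.comp x y

section

variable {A : Type u} [BooleanAlgebra A] (R : RelAlg A)

private theorem conv_mono {x y : A} (h : x ≤ y) : R.conv x ≤ R.conv y := by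
  rw [← sup_eq_right.2 h, R.conv_sup]
  exact le_sup_left

private theorem mono_left {x y : A} (z : A) (h : x ≤ y) : R.comp x z ≤ R.comp y z := by
  rw [← sup_eq_right.2 h, R.sup_comp]
  exact le_sup_left

private theorem mono_right (x : A) {y z : A} (h : y ≤ z) : R.comp x y ≤ R.comp x z := by
  have h1 := mono_left R (R.conv x) (conv_mono R h)
  rw [← R.conv_comp, ← R.conv_comp] at h1
  have h2 := conv_mono R h1
  rwa [R.conv_conv, R.conv_conv] at h2

private theorem tarski_le (x y : A) : R.comp (R.conv x) (R.comp x y)ᶜ ≤ yᶜ :=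
  sup_eq_right.1 (R.tarski x y)

private theorem comp_bot (x : A) : R.comp x ⊥ = ⊥ := by
  have h1 := tarski_le R (R.conv x) ⊤
  rw [R.conv_conv, compl_top] at h1
  exact le_bot_iff.1 ((mono_right R x bot_le).trans h1)

private theorem bot_comp (x : A) : R.comp ⊥ x = ⊥ := by
  have hb : R.conv ⊥ = ⊥ := by
    refine le_bot_iff.1 ?_
    have h1 := conv_mono R (bot_le : ⊥ ≤ R.conv ⊥)
    rwa [R.conv_conv] at h1
  have h1 := R.conv_comp ⊥ x
  rw [hb, comp_bot] at h1
  have h2 := congrArg R.conv h1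
  rwa [R.conv_conv, hb] at h2

/-- if the identity is an atom, it is below `conv x ; x` for `x ≠ ⊥` -/
private theorem one_le (h1 : IsAtom R.one) {x : A} (hx : x ≠ ⊥) :
    R.one ≤ R.comp (R.conv x) x := by
  by_contra hcon
  have h2 : R.one ⊓ R.comp (R.conv x) x = ⊥ := by
    rcases h1.le_iff.1 (inf_le_left : R.one ⊓ R.comp (R.conv x) x ≤ R.one) with h | h
    · exact h
    · exact absurd (inf_eq_left.1 h) hcon
  have h3 : R.comp (R.conv x) x ≤ R.oneᶜ := by
    rw [le_compl_iff_disjoint_right, disjoint_comm, disjoint_iff]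
    exact h2
  have h4 : R.comp (R.conv x) xᶜ ≤ R.oneᶜ := by
    have := tarski_le R x R.one
    rwa [R.comp_one] at this
  have h5 : R.comp (R.conv x) ⊤ ≤ R.oneᶜ := by
    have hc : R.comp (R.conv x) (x ⊔ xᶜ) ≤ R.comp (R.conv x) x ⊔ R.comp (R.conv x) xᶜ := by
      have e1 := R.sup_comp (R.conv x) (R.conv xᶜ) (R.conv (R.conv x))
      rw [← R.conv_sup, ← R.conv_comp, ← R.conv_comp, ← R.conv_comp, ← R.conv_sup] at e1
      have e2 := congrArg R.conv e1
      rw [R.conv_conv, R.conv_conv] at e2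
      exact e2.le
    rw [sup_compl_eq_top] at hc
    exact hc.trans (sup_le h3 h4)
  have h6 : R.one ≤ (R.comp (R.conv x) ⊤)ᶜ := by
    rw [le_compl_comm]
    exact h5
  have h7 := tarski_le R (R.conv x) ⊤
  rw [R.conv_conv, compl_top] at h7
  have h8 := (mono_right R x h6).trans h7
  rw [R.comp_one] at h8
  exact hx (le_bot_iff.1 h8)

private theorem integral (h1 : IsAtom R.one) {x y : A} (h : R.comp x y = ⊥) : x = ⊥ ∨ y = ⊥ := by
  by_contra hcon
  rw [not_or] at hcon
  have hy : R.conv y ≠ ⊥ := by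
    intro h0
    apply hcon.2
    have h2 := congrArg R.conv h0
    rw [R.conv_conv] at h2
    rw [h2]
    refine le_bot_iff.1 ?_
    have h3 := conv_mono R (bot_le : ⊥ ≤ R.conv ⊥)
    rwa [R.conv_conv] at h3
  have h2 := one_le R h1 hcon.1
  have h3 := one_le R h1 hy
  rw [R.conv_conv] at h3
  have h4 : R.comp (R.comp (R.conv x) x) (R.comp y (R.conv y)) = ⊥ := by
    rw [R.assoc, ← R.assoc x y, h, bot_comp, comp_bot]
  have h5 : R.comp R.one R.one ≤ ⊥ := by
    rw [← h4]
    exact (mono_left R _ h2).trans (mono_right R _ h3)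
  rw [R.comp_one] at h5
  exact h1.1 (le_bot_iff.1 h5)

end

/-- The case of an algebra in `Type`. -/
private theorem small {A : Type} [BooleanAlgebra A] [Finite A] (R : RelAlg A)
    (h1 : IsAtom R.one) (hf : ∃ f, Flexible R f) :
    ∃ (U : Type) (_ : Finite U) (_ : Nonempty U) (h : A → Set (U × U)), IsRep R h := by
  have := Fintype.ofFinite A
  obtain ⟨f, ⟨hf1, hf2⟩, hf3⟩ := hf
  let S : Pool.Agent.Work.MP_79fed9_lc.RAx A :=
    ⟨R.comp, R.conv, R.one, R.sup_comp, R.comp_one, R.conv_conv, R.conv_sup, R.conv_comp,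
      tarski_le R, h1.1, fun x y => integral R h1⟩
  have hle : ∀ x : A, IsAtom x → (x ≤ R.oneᶜ ↔ x ≠ R.one) := by
    intro x hx
    rw [le_compl_iff_disjoint_right, disjoint_iff]
    constructor
    · rintro h rfl
      rw [inf_idem] at h
      exact hx.1 h
    · intro h
      exact (hx.disjoint_of_ne h1 h).eq_bot
  obtain ⟨n, h, hinj, hsup, hcompl, hcomp, hconv, hone⟩ := S.main
    ⟨f, hf1, (hle f hf1).2 hf2, fun a b ha hb ha' hb' => hf3 a b f ⟨ha, (hle a ha).1 ha'⟩
      ⟨hb, (hle b hb).1 hb'⟩ ⟨hf1, hf2⟩ (Or.inr (Or.inr rfl))⟩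
  have hbot : h ⊥ = ∅ := by
    have e1 := hsup ⊤ ⊥
    have e2 := hsup ⊥ ⊤
    have e3 := hcompl ⊤
    rw [compl_top] at e3
    rw [bot_sup_eq] at e2
    have e4 : h ⊥ ⊆ h ⊤ := by
      rw [e2]
      exact Set.subset_union_left
    rw [e3] at e4
    rw [e3]
    have e5 := hcompl ⊥
    rw [compl_bot] at e5
    -- the complement of `h ⊤` is contained in `h ⊤`
    have e6 : h ⊥ ⊆ h ⊤ := by
      rw [e2]
      exact Set.subset_union_left
    rw [e3] at e6
    refine Set.eq_empty_iff_forall_notMem.2 fun p hp => hp (e6 hp)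
  have htop : h ⊤ = Set.univ := by
    have e1 := hcompl ⊥
    rw [compl_bot, hbot, Set.compl_empty] at e1
    exact e1
  refine ⟨Fin n, inferInstance, ?_, h, hinj, hbot, htop, hsup, ?_, hcompl, hcomp, hconv, hone⟩
  · by_contra hne
    rw [not_nonempty_iff] at hne
    apply h1.1
    apply hinj
    exact Set.ext fun p => (hne.false p.1).elim
  · intro x y
    have e1 : x ⊓ y = (xᶜ ⊔ yᶜ)ᶜ := by rw [compl_sup, compl_compl, compl_compl]
    rw [e1, hcompl, hsup, hcompl, hcompl, Set.compl_union, compl_compl, compl_compl]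

/-- A finite Boolean algebra is isomorphic to one in `Type`. -/
private theorem exists_small (A : Type u) [BooleanAlgebra A] [Finite A] :
    ∃ (B : Type) (_ : BooleanAlgebra B) (_ : Finite B), Nonempty (B ≃o A) := by
  let φ : Shrink.{0} A ≃o A := (orderIsoShrink.{0} A).symm
  letI : Max (Shrink.{0} A) := ⟨fun x y => φ.symm (φ x ⊔ φ y)⟩
  letI : Min (Shrink.{0} A) := ⟨fun x y => φ.symm (φ x ⊓ φ y)⟩
  letI : Top (Shrink.{0} A) := ⟨φ.symm ⊤⟩
  letI : Bot (Shrink.{0} A) := ⟨φ.symm ⊥⟩
  letI : Compl (Shrink.{0} A) := ⟨fun x => φ.symm (φ x)ᶜ⟩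
  letI : SDiff (Shrink.{0} A) := ⟨fun x y => φ.symm (φ x \ φ y)⟩
  letI : HImp (Shrink.{0} A) := ⟨fun x y => φ.symm (φ x ⇨ φ y)⟩
  letI hB : BooleanAlgebra (Shrink.{0} A) :=
    φ.injective.booleanAlgebra φ φ.le_iff_le φ.lt_iff_lt (fun _ _ => φ.apply_symm_apply _)
      (fun _ _ => φ.apply_symm_apply _) (φ.apply_symm_apply _) (φ.apply_symm_apply _)
      (fun _ => φ.apply_symm_apply _) (fun _ _ => φ.apply_symm_apply _)
      (fun _ _ => φ.apply_symm_apply _)
  exact ⟨Shrink.{0} A, hB, inferInstance, ⟨⟨φ.toEquiv, φ.le_iff_le⟩⟩⟩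

/-- The flexible atom theorem: every finite relation algebra in which the identity is an atom and
which has a flexible atom is representable over a finite set. -/
theorem result (A : Type u) [BooleanAlgebra A] [Finite A] (R : RelAlg A) (h1 : IsAtom R.one)
    (hf : ∃ f, Flexible R f) :
    ∃ (U : Type) (_ : Finite U) (_ : Nonempty U) (h : A → Set (U × U)), IsRep R h := by
  obtain ⟨B, hB, hBf, ⟨ψ⟩⟩ := exists_small A
  let S : RelAlg B :=
    { comp := fun x y => ψ.symm (R.comp (ψ x) (ψ y))
      conv := fun x => ψ.symm (R.conv (ψ x))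
      one := ψ.symm R.one
      assoc := fun x y z => by simp only [OrderIso.apply_symm_apply, R.assoc]
      sup_comp := fun x y z => by
        simp only [map_sup, OrderIso.apply_symm_apply, R.sup_comp]
      comp_one := fun x => by simp only [OrderIso.apply_symm_apply, R.comp_one,
        OrderIso.symm_apply_apply]
      conv_conv := fun x => by simp only [OrderIso.apply_symm_apply, R.conv_conv,
        OrderIso.symm_apply_apply]
      conv_sup := fun x y => by simp only [map_sup, R.conv_sup]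
      conv_comp := fun x y => by simp only [OrderIso.apply_symm_apply, R.conv_comp]
      tarski := fun x y => by
        apply ψ.injective
        simp only [map_sup, map_compl', OrderIso.apply_symm_apply, R.tarski] }
  have hone : IsAtom S.one := (ψ.symm.isAtom_iff R.one).2 h1
  have hdiv : ∀ x : B, DivAtom S x ↔ DivAtom R (ψ x) := by
    intro x
    refine and_congr (ψ.isAtom_iff x).symm (not_congr ?_)
    exact ⟨fun h => by rw [h]; exact ψ.apply_symm_apply _, fun h => by
      rw [← ψ.symm_apply_apply x, h]⟩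
  obtain ⟨f, hf1, hf2⟩ := hf
  have hfl : Flexible S (ψ.symm f) := by
    refine ⟨(hdiv _).2 (by rwa [ψ.apply_symm_apply]), fun x y z hx hy hz hor => ?_⟩
    have h2 := hf2 (ψ x) (ψ y) (ψ z) ((hdiv x).1 hx) ((hdiv y).1 hy) ((hdiv z).1 hz) (by
      rcases hor with h | h | h
      · exact Or.inl (by rw [← h, ψ.apply_symm_apply])
      · exact Or.inr (Or.inl (by rw [← h, ψ.apply_symm_apply]))
      · exact Or.inr (Or.inr (by rw [← h, ψ.apply_symm_apply])))
    rw [← ψ.symm_apply_apply z]
    exact ψ.symm.monotone h2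
  obtain ⟨U, hU, hU', h, hr⟩ := small S hone ⟨_, hfl⟩
  refine ⟨U, hU, hU', fun x => h (ψ.symm x), ?_⟩
  have e1 : ∀ x y : A, R.comp x y = ψ (S.comp (ψ.symm x) (ψ.symm y)) := fun x y => by
    change _ = ψ (ψ.symm (R.comp (ψ (ψ.symm x)) (ψ (ψ.symm y))))
    rw [ψ.apply_symm_apply, ψ.apply_symm_apply, ψ.apply_symm_apply]
  have e2 : ∀ x : A, R.conv x = ψ (S.conv (ψ.symm x)) := fun x => by
    change _ = ψ (ψ.symm (R.conv (ψ (ψ.symm x))))
    rw [ψ.apply_symm_apply, ψ.apply_symm_apply]
  exact
    { inj := hr.inj.comp ψ.symm.injective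
      bot := by rw [map_bot]; exact hr.bot
      top := by rw [map_top]; exact hr.top
      sup := fun x y => by rw [map_sup]; exact hr.sup _ _
      inf := fun x y => by rw [map_inf]; exact hr.inf _ _
      compl := fun x => by rw [map_compl']; exact hr.compl _
      comp := fun x y => by rw [e1, ψ.symm_apply_apply]; exact hr.comp _ _
      conv := fun x => by rw [e2, ψ.symm_apply_apply]; exact hr.conv _
      one := hr.one }

end Pool.Agent.Results.MP_79fed9_lc.FlexibleAtom
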